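import Pool.Agent.TH133.Defs

/-!
# Bloch-Beilinson filtrations on zero-cycles: definitions

`𝒱` is a class of smooth projective varieties, `C` the Chow groups with rational coefficients, `H` a
Weil cohomology theory, and `D` the class of those varieties which are considered. Correspondences
which map zero-cycles on `X` to zero-cycles on `Y` are the elements of `CH^(dim Y)(X × Y)`.
-/

set_option autoImplicit false

open CategoryTheory AlgebraicGeometry

universe u v w

namespace Pool.Agent.X307.ZC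

open Pool.Agent.H914 Pool.Agent.H914.VarClass Pool.Agent.H914.VarClass.Obj Pool.Agent.W492.BB
  Pool.Agent.W550.Corr Pool.Agent.TH133

variable {k : Type u} [Field k] {𝒱 : VarClass k} (C : TheoryData.{u, v, 0} 𝒱 ℚ) {K : Type w}
  [Field K] (H : WeilTheoryData.{u, v, w} C K)

/-- Families of subspaces: `F X n` is `F^n CH_0(X)`. -/
abbrev ZFil : Type _ := ∀ X : 𝒱.Obj, ℕ → Submodule ℚ (C.A X)

variable {C}

/-- `x ∈ F^n CH_0(X)`. -/
def Mem (F : ZFil C) {X : 𝒱.Obj} (n : ℕ) (x : C.A X) : Prop := x ∈ F X n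

/-- The subspaces `F X n` form a Bloch-Beilinson filtration on the zero-cycles of the varieties `X`
with the property `D`: `F^0 CH_0(X) = CH_0(X)`, `F^1 CH_0(X)` consists of the homologically trivial
zero-cycles, the filtration is descending, `F^(dim X + 1) CH_0(X) = 0`, and all correspondences
`Γ ∈ CH^(dim Y)(X × Y)` map `F^n CH_0(X)` to `F^n CH_0(Y)`, and to `F^(n+1) CH_0(Y)` if `Γ` acts as
zero on `H^(2 dim X - n)(X)`. These are the conditions of the problem, for zero-cycles. -/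
structure IsBBZero (D : 𝒱.Obj → Prop) (F : ZFil C) : Prop where
  zero : ∀ X : 𝒱.Obj, D X → ∀ x : C.A X, Mem F 0 x ↔ C.Deg X.dim x
  one : ∀ X : 𝒱.Obj, D X → ∀ x : C.A X, Mem F 1 x ↔ C.Deg X.dim x ∧ H.cl x = 0
  anti : ∀ X : 𝒱.Obj, D X → ∀ (n : ℕ) (x : C.A X), Mem F (n + 1) x → Mem F n x
  top : ∀ X : 𝒱.Obj, D X → ∀ x : C.A X, Mem F (X.dim + 1) x → x = 0
  stable : ∀ X Y : 𝒱.Obj, D X → D Y → ∀ Γ : C.A (X.prod Y), C.Deg Y.dim Γ → ∀ (n : ℕ) (x : C.A X),
    Mem F n x → Mem F n (C.act Γ x)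
  shift : ∀ X Y : 𝒱.Obj, D X → D Y → ∀ Γ : C.A (X.prod Y), C.Deg Y.dim Γ → ∀ n : ℕ,
    Kills H Γ (2 * X.dim - n) → ∀ x : C.A X, Mem F n x → Mem F (n + 1) (C.act Γ x)

variable (C)

/-- The zero-cycle `x` on `X` lies in `G^n CH_0(X)`: it is killed by all correspondences to the
zero-cycles of varieties `Y` of dimension less than `n` (with the property `D`). For `n = 1` these
are the zero-cycles of degree zero, for `n = 2` this is the kernel of the Albanese map. -/
def Low (D : 𝒱.Obj → Prop) {X : 𝒱.Obj} (n : ℕ) (x : C.A X) : Prop :=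
  C.Deg X.dim x ∧ ∀ Y : 𝒱.Obj, D Y → Y.dim < n → ∀ Γ : C.A (X.prod Y),
    C.Deg Y.dim Γ → C.act Γ x = 0

/-- The correspondences `X → Y` (mapping zero-cycles to zero-cycles) which are sums of compositions
`X → Z → Y` of such correspondences through varieties `Z` of dimension at most `m`. -/
noncomputable def thru (D : 𝒱.Obj → Prop) (X Y : 𝒱.Obj) (m : ℕ) : Submodule ℚ (C.A (X.prod Y)) :=
  Submodule.span ℚ {Γ | ∃ (Z : 𝒱.Obj) (a : C.A (X.prod Z)) (b : C.A (Z.prod Y)), D Z ∧
    Z.dim ≤ m ∧ C.Deg Z.dim a ∧ C.Deg Y.dim b ∧ Γ = C.comp a b}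

variable {C}

/-- For `j < dim X` some self-correspondence of `X` which factors through varieties of dimension at
most `j` acts as the identity on `H^(2 dim X - j)(X)`. This is a consequence of the Lefschetz
standard conjecture for `X` (with a linear section of dimension `j`). -/
def LefschetzFactors (D : 𝒱.Obj → Prop) : Prop :=
  ∀ X : 𝒱.Obj, D X → ∀ j : ℕ, j < X.dim → ∃ Φ ∈ thru C D X X j,
    ∀ c : H.A X, H.Deg (2 * X.dim - j) c → H.act (H.cl Φ) c = c

/-- For `n < dim X` every zero-cycle `x` on `X` comes from a variety `W` of dimension `n` such that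
`H^(2n - i)(W)` injects into the cohomology of `X` for `i < n`, with a left inverse given by a
correspondence `θ` from `X` to `W`. Under the Lefschetz standard conjecture for `X` one can take a
smooth complete intersection `W ⊆ X` of ample divisors which contains `x`. -/
def HasSections (D : 𝒱.Obj → Prop) : Prop :=
  ∀ X : 𝒱.Obj, D X → ∀ n : ℕ, n < X.dim → ∀ x : C.A X, C.Deg X.dim x →
    ∃ (W : 𝒱.Obj) (ι : C.A (W.prod X)) (θ : C.A (X.prod W)) (w : C.A W), D W ∧ W.dim = n ∧
      C.Deg X.dim ι ∧ C.Deg n θ ∧ C.Deg n w ∧ C.act ι w = x ∧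
      ∀ i : ℕ, i < n → ∀ c : H.A W, H.Deg (2 * n - i) c → H.act (H.cl (C.comp ι θ)) c = c

/-- For `X` and `Y` of the same dimension `n` there is a variety `P` of dimension `n` such that the
motives of `X` and `Y` are direct summands of the motive of `P`, in such a way that the composition
`Y → P → X` kills the zero-cycles of degree zero. (Take a smooth complete intersection
`P ⊆ X × Y` of divisors of the form `A × Y + X × B`.) -/
def HasCommonCovers (D : 𝒱.Obj → Prop) : Prop :=
  ∀ X Y : 𝒱.Obj, D X → D Y → X.dim = Y.dim → ∃ (P : 𝒱.Obj) (a : C.A (X.prod P))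
    (a' : C.A (P.prod X)) (b : C.A (Y.prod P)) (b' : C.A (P.prod Y)), D P ∧ P.dim = X.dim ∧
      C.Deg X.dim a ∧ C.Deg X.dim a' ∧ C.Deg X.dim b ∧ C.Deg X.dim b' ∧
      (∀ x : C.A X, C.Deg X.dim x → C.act (C.comp a a') x = x) ∧
      (∀ y : C.A Y, C.Deg X.dim y → C.act (C.comp b b') y = y) ∧
      (∀ y : C.A Y, C.Deg X.dim y → H.cl y = 0 → C.act (C.comp b a') y = 0)

/-- The correspondences `Γ ∈ CH^n(X × Y)`, `n = dim Y`, which act as zero on `H^(2 dim X - n)(X)`
kill the zero-cycles on `X` which are killed by all correspondences to varieties of dimension less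
than `n`. -/
def BlochAll (D : 𝒱.Obj → Prop) : Prop :=
  ∀ X Y : 𝒱.Obj, D X → D Y → ∀ Γ : C.A (X.prod Y), C.Deg Y.dim Γ →
    Kills H Γ (2 * X.dim - Y.dim) → ∀ x : C.A X, Low C D Y.dim x → C.act Γ x = 0

/-- The same for homologically trivial correspondences only. -/
def BlochHom (D : 𝒱.Obj → Prop) : Prop :=
  ∀ X Y : 𝒱.Obj, D X → D Y → ∀ Γ : C.A (X.prod Y), C.Deg Y.dim Γ → H.cl Γ = 0 →
    ∀ x : C.A X, Low C D Y.dim x → C.act Γ x = 0

/-- The same only for the homologically trivial self-correspondences `Γ` of degree zero such that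
`Γ ∘ Γ` acts as zero on the zero-cycles. -/
def BlochTop (D : 𝒱.Obj → Prop) : Prop :=
  ∀ P : 𝒱.Obj, D P → ∀ Γ : C.A (P.prod P), C.Deg P.dim Γ → H.cl Γ = 0 →
    (∀ x : C.A P, C.Deg P.dim x → C.act Γ (C.act Γ x) = 0) →
    ∀ x : C.A P, Low C D P.dim x → C.act Γ x = 0

/-- The theorem of Bloch and Srinivas (over a universal domain): a correspondence
`Γ ∈ CH^(dim Y)(X × Y)` which acts as zero on the zero-cycles of `X` is supported on `V × Y` for a
divisor `V` of `X`; it is a sum of compositions `X → Z → Y` of correspondences of codimensions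
`dim X` and `dim Y - 1` through (resolutions of the components of `V`) `Z` of dimension
`dim X - 1`; it is zero if `dim X = 0`. -/
def BlochSrinivas (C : TheoryData.{u, v, 0} 𝒱 ℚ) (D : 𝒱.Obj → Prop) : Prop :=
  ∀ X Y : 𝒱.Obj, D X → D Y → ∀ Γ : C.A (X.prod Y), C.Deg Y.dim Γ →
    (∀ x : C.A X, C.Deg X.dim x → C.act Γ x = 0) →
    Γ ∈ Submodule.span ℚ {Δ : C.A (X.prod Y) | ∃ (Z : 𝒱.Obj) (a : C.A (X.prod Z))
      (b : C.A (Z.prod Y)), D Z ∧ Z.dim + 1 = X.dim ∧ C.Deg X.dim a ∧ C.Deg ((Y.dim : ℤ) - 1) b ∧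
      Δ = C.comp a b}

/-- The index of nilpotence: `N(0) = 1`, `N(d + 1) = (d + 2) (2 N(d) + 1)`. -/
def nilIndex : ℕ → ℕ
  | 0 => 1
  | d + 1 => (d + 2) * (2 * nilIndex d + 1)

end Pool.Agent.X307.ZC
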