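import Pool.Agent.X307.ZC.Low

/-!
# Bloch-Beilinson filtrations on zero-cycles: the criteria
-/

set_option autoImplicit false

open CategoryTheory AlgebraicGeometry

universe u v w

namespace Pool.Agent.X307.ZC

open Pool.Agent.H914 Pool.Agent.H914.VarClass Pool.Agent.H914.VarClass.Obj Pool.Agent.W492.BB
  Pool.Agent.W550.Corr Pool.Agent.TH133 Pool.Agent.X308.S

set_option linter.unusedSectionVars false

variable {k : Type u} [Field k] {𝒱 : VarClass k} {C : TheoryData.{u, v, 0} 𝒱 ℚ}
  [hC : IsChowProj C] {K : Type w} [Field K] {H : WeilTheoryData.{u, v, w} C K}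
  [hH : IsWeilProj H] {D : 𝒱.Obj → Prop} {X Y Z W : 𝒱.Obj}

include hC hH

/-! ### A Bloch-Beilinson filtration is the explicit one -/

lemma IsBBZero.deg {F : ZFil C} (hF : IsBBZero H D F) (hX : D X) {n : ℕ} {x : C.A X}
    (hx : x ∈ F X n) : C.Deg X.dim x := by
  induction n with
  | zero => exact (hF.zero X hX x).1 hx
  | succ n ih => exact ih (hF.anti X hX n x hx)

lemma IsBBZero.anti' {F : ZFil C} (hF : IsBBZero H D F) (hX : D X) {m n : ℕ} (h : m ≤ n) :
    F X n ≤ F X m := by
  induction n, h using Nat.le_induction with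
  | base => exact le_rfl
  | succ n _ ih => exact fun x hx => ih (hF.anti X hX n x hx)

/-- **Uniqueness.** A Bloch-Beilinson filtration on the zero-cycles consists of the groups of
zero-cycles killed by the correspondences to varieties of small dimension. -/
theorem IsBBZero.eq_low {F : ZFil C} (hF : IsBBZero H D F) (hL : LefschetzFactors H D)
    (hX : D X) (n : ℕ) : F X n = low C D X n := by
  apply le_antisymm
  · intro x hx
    refine ⟨hF.deg hX hx, fun Y hY hn Γ hΓ => ?_⟩
    exact hF.top Y hY _ (hF.anti' hY (Nat.succ_le_of_lt hn) (hF.stable X Y hX hY Γ hΓ n x hx))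
  · intro x hx
    have key : ∀ j : ℕ, j ≤ n → x ∈ F X j := by
      intro j
      induction j with
      | zero => exact fun _ => (hF.zero X hX x).2 hx.1
      | succ j ih =>
        intro hj
        rcases lt_or_ge j X.dim with hd | hd
        · obtain ⟨Φ, hΦ, hΦc⟩ := hL X hX j hd
          have hΦm : C.Deg X.dim Φ := thru_mem hΦ
          have hdm : C.Deg X.dim (dg C X - Φ) := Submodule.sub_mem _ (dg_mem C X) hΦm
          have hkill : Kills H (dg C X - Φ) (2 * X.dim - j) := fun c hc => by
            rw [map_sub, H.act_sub, actH_dg, hΦc c hc, sub_self]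
          have h1 := hF.shift X X hX hX _ hdm j hkill x (ih (by omega))
          rwa [C.act_sub, act_dg, thru_kills (Nat.lt_of_succ_le hj) hΦ hx, sub_zero] at h1
        · rw [low_top hX (by omega) hx]
          exact Submodule.zero_mem _
    exact key n le_rfl

theorem IsBBZero.blochAll {F : ZFil C} (hF : IsBBZero H D F) (hL : LefschetzFactors H D) :
    BlochAll H D := by
  intro X Y hX hY Γ hΓ hk x hx
  have hx' : x ∈ low C D X Y.dim := hx
  rw [← hF.eq_low hL hX] at hx'
  exact hF.top Y hY _ (hF.shift X Y hX hY Γ hΓ Y.dim hk x hx')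

/-! ### Levels -/

/-- `BlochAll` for targets of dimension `n`. -/
def AllAt (H : WeilTheoryData.{u, v, w} C K) (D : 𝒱.Obj → Prop) (n : ℕ) : Prop :=
  ∀ X Y : 𝒱.Obj, D X → D Y → Y.dim = n → ∀ Γ : C.A (X.prod Y), C.Deg Y.dim Γ →
    Kills H Γ (2 * X.dim - Y.dim) → ∀ x ∈ low C D X Y.dim, C.act Γ x = 0

/-- `BlochHom` for targets of dimension `n`. -/
def HomAt (H : WeilTheoryData.{u, v, w} C K) (D : 𝒱.Obj → Prop) (n : ℕ) : Prop :=
  ∀ X Y : 𝒱.Obj, D X → D Y → Y.dim = n → ∀ Γ : C.A (X.prod Y), C.Deg Y.dim Γ → H.cl Γ = 0 →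
    ∀ x ∈ low C D X Y.dim, C.act Γ x = 0

/-- `BlochHom` for sources and targets of dimension `n`. -/
def EqAt (H : WeilTheoryData.{u, v, w} C K) (D : 𝒱.Obj → Prop) (n : ℕ) : Prop :=
  ∀ X Y : 𝒱.Obj, D X → D Y → X.dim = n → Y.dim = n → ∀ Γ : C.A (X.prod Y), C.Deg Y.dim Γ →
    H.cl Γ = 0 → ∀ x ∈ low C D X Y.dim, C.act Γ x = 0

/-- Correspondences acting as zero in the relevant degree raise the level. -/
lemma AllAt.shift {n : ℕ} (h : AllAt H D n) (hX : D X) {Γ : C.A (X.prod Y)} (hΓ : C.Deg Y.dim Γ)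
    (hk : Kills H Γ (2 * X.dim - n)) {x : C.A X} (hx : x ∈ low C D X n) :
    C.act Γ x ∈ low C D Y (n + 1) := by
  refine ⟨act_zc hΓ hx.1, fun Z hZ hn Δ hΔ => ?_⟩
  rcases Nat.lt_succ_iff_lt_or_eq.1 hn with h1 | h1
  · exact (low_stable hΓ hx).2 Z hZ h1 Δ hΔ
  · rw [← C.act_comp]
    subst h1
    exact h X Z hX hZ rfl _ (comp_zc hΓ hΔ) (kills_comp_left hk Δ) x hx

/-- The explicit filtration is a Bloch-Beilinson filtration if the condition is satisfied. -/
theorem isBBZero_low (hpt : ∃ P, D P ∧ P.dim = 0) (h : BlochAll H D) :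
    IsBBZero H D (low C D) where
  zero _ _ _ := low_zero
  one _ _ _ := low_one hpt
  anti _ _ n _ hx := low_anti (Nat.le_succ n) hx
  top X hX _ hx := low_top hX (Nat.lt_succ_self _) hx
  stable _ _ _ _ _ hΓ _ _ hx := low_stable hΓ hx
  shift X Y hX _ Γ hΓ n hk x hx := by
    have h1 : AllAt H D n := fun X Y hX hY _ => h X Y hX hY
    exact h1.shift hX hΓ hk hx

/-- From homologically trivial correspondences to all correspondences. -/
theorem allAt_of_homAt (hL : LefschetzFactors H D) {n : ℕ} (h : HomAt H D n) : AllAt H D n := by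
  intro X Y hX hY hYn Γ hΓ hk x hx
  subst hYn
  rcases lt_or_ge X.dim Y.dim with hd | hd
  · rw [low_top hX hd hx, C.act_map_zero]
  · obtain ⟨U, hU, hUk, hUx, -⟩ := exists_cut hL hX Y.dim hd
    obtain ⟨V, hV, hVk, -, hVt⟩ := exists_cut hL hY Y.dim le_rfl
    have hVt' : ∀ j : ℕ, j < Y.dim → Kills H (tp C V) j := fun j hj =>
      kills_tp hV (hVk j hj)
    have hm : C.Deg Y.dim (C.comp (C.comp U Γ) (tp C V)) := comp_zc (comp_zc hU hΓ) (tp_mem C hV)
    have hcl : H.cl (C.comp (C.comp U Γ) (tp C V)) = 0 := by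
      apply cl_zero_of
      intro m a ha
      rw [actH_comp, actH_comp]
      rcases lt_or_ge m 0 with hm0 | hm0
      · rw [hgr_neg ha hm0, TheoryData.act_map_zero, TheoryData.act_map_zero,
          TheoryData.act_map_zero]
      have hUa : H.act (H.cl U) a ∈ H.gr X m := actH_deg hU ha (by ring)
      rcases lt_trichotomy m (2 * X.dim - Y.dim) with h1 | h1 | h1
      · -- `Γ U a` lies in degree `m + 2 dim Y - 2 dim X < dim Y`
        have h2 : H.act (H.cl Γ) (H.act (H.cl U) a) ∈ H.gr Y (m + 2 * ((Y.dim : ℤ) - X.dim)) :=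
          actH_deg hΓ hUa rfl
        rcases lt_or_ge (m + 2 * ((Y.dim : ℤ) - X.dim)) 0 with h3 | h3
        · rw [hgr_neg h2 h3, TheoryData.act_map_zero]
        · obtain ⟨j, hj⟩ := Int.eq_ofNat_of_zero_le h3
          rw [hj] at h2
          exact hVt' j (by omega) _ h2
      · rw [h1] at hUa
        rw [hk _ hUa, TheoryData.act_map_zero]
      · -- `U` kills `H^m(X)`
        rcases le_or_gt m (2 * X.dim) with h3 | h3
        · obtain ⟨j, hj⟩ := Int.eq_ofNat_of_zero_le (show 0 ≤ 2 * (X.dim : ℤ) - m by omega)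
          have h4 : m = 2 * X.dim - (j : ℤ) := by omega
          rw [h4] at ha
          rw [hUk j (by omega) a ha, TheoryData.act_map_zero, TheoryData.act_map_zero]
        · have h5 : a = 0 := by
            have := gr_top (H := H) (X := X) h3
            rw [this] at ha
            exact (Submodule.mem_bot _).1 ha
          rw [h5, TheoryData.act_map_zero, TheoryData.act_map_zero, TheoryData.act_map_zero]
    have h6 := h X Y hX hY rfl _ hm hcl x hx
    rw [C.act_comp, C.act_comp, hUx x hx, hVt _ (act_zc hΓ hx.1)] at h6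
    exact h6

/-- From varieties of dimension `n` to all varieties as sources. -/
theorem homAt_of_eqAt (hS : HasSections H D) {n : ℕ} (hlow : ∀ m : ℕ, m < n → AllAt H D m)
    (h : EqAt H D n) : HomAt H D n := by
  intro X Y hX hY hYn Γ hΓ hcl x hx
  subst hYn
  rcases lt_trichotomy X.dim Y.dim with hd | hd | hd
  · rw [low_top hX hd hx, C.act_map_zero]
  · exact h X Y hX hY hd rfl Γ hΓ hcl x hx
  · obtain ⟨W, ι, θ, w, hW, hWn, hι, hθ, hw, hιw, hid⟩ := hS X hX Y.dim hd x hx.1
    have hθ' : C.Deg W.dim θ := by rwa [hWn]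
    have hw' : C.Deg W.dim w := by rwa [hWn]
    have hιθ : C.Deg W.dim (C.comp ι θ) := comp_zc hι hθ'
    have hT : C.Deg W.dim (dg C W - C.comp ι θ) := Submodule.sub_mem _ (dg_mem C W) hιθ
    have hθx : C.act θ x ∈ low C D W Y.dim := low_stable hθ' hx
    -- the powers of `T = 1 - θ ι` raise the level and do not change the class of `w`
    have key : ∀ j : ℕ, j ≤ Y.dim → ∃ t ∈ low C D W j, w - t ∈ low C D W Y.dim := by
      intro j
      induction j with
      | zero =>
        intro _
        refine ⟨w, low_zero.2 hw', ?_⟩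
        rw [sub_self]
        exact Submodule.zero_mem _
      | succ j ih =>
        intro hj
        obtain ⟨t, ht, hwt⟩ := ih (by omega)
        have hkill : Kills H (dg C W - C.comp ι θ) (2 * W.dim - j) := fun c hc => by
          rw [hWn] at hc
          rw [map_sub, H.act_sub, actH_dg, hid j (by omega) c hc, sub_self]
        refine ⟨C.act (dg C W - C.comp ι θ) t, (hlow j (by omega)).shift hW hT hkill ht, ?_⟩
        have e : w - C.act (dg C W - C.comp ι θ) t =
            C.act θ x + C.act (dg C W - C.comp ι θ) (w - t) := by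
          rw [act_map_sub, C.act_sub _ _ w, act_dg, C.act_comp, hιw]
          abel
        rw [e]
        exact Submodule.add_mem _ hθx (low_stable hT hwt)
    obtain ⟨t, ht, hwt⟩ := key Y.dim le_rfl
    have hwlow : w ∈ low C D W Y.dim := by
      have := Submodule.add_mem _ hwt ht
      rwa [sub_add_cancel] at this
    have h1 := h W Y hW hY hWn rfl (C.comp ι Γ) (comp_zc hι hΓ) (by
      rw [cl_comp, hcl]
      exact comp_zero H.toTheoryData _) w hwlow
    rwa [C.act_comp, hιw] at h1

/-- From self-correspondences to correspondences between varieties of the same dimension. -/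
theorem eqAt_of_top (hP : HasCommonCovers H D) (h : BlochTop H D) (n : ℕ) : EqAt H D n := by
  intro X Y hX hY hXn hYn Γ hΓ hcl x hx
  obtain ⟨P, a, a', b, b', hPD, hPd, ha, ha', hb, hb', hax, hby, hba⟩ :=
    hP X Y hX hY (hXn.trans hYn.symm)
  have hXY : X.dim = Y.dim := hXn.trans hYn.symm
  have hPY : P.dim = Y.dim := hPd.trans hXY
  have haP : C.Deg P.dim a := by rwa [hPd]
  have hbP : C.Deg P.dim b := by rwa [hPd]
  have hbY : C.Deg Y.dim b' := by rwa [← hXY]
  have hG : C.Deg P.dim (C.comp (C.comp a' Γ) b) := comp_zc (comp_zc ha' hΓ) hbP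
  have hGcl : H.cl (C.comp (C.comp a' Γ) b) = 0 := by
    rw [cl_comp, cl_comp, hcl]
    rw [comp_zero H.toTheoryData, zero_comp H.toTheoryData]
  have hGG : ∀ z : C.A P, C.Deg P.dim z →
      C.act (C.comp (C.comp a' Γ) b) (C.act (C.comp (C.comp a' Γ) b) z) = 0 := by
    intro z hz
    have h1 : C.Deg Y.dim (C.act (C.comp a' Γ) z) := act_zc (comp_zc ha' hΓ) hz
    have h2 : H.cl (C.act (C.comp a' Γ) z) = 0 := by
      rw [C.act_comp, C.act_apply, H.cl_push, map_mul, hcl, zero_mul, map_zero]
    have h3 := hba (C.act (C.comp a' Γ) z) (by rwa [hXY]) h2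
    rw [C.act_comp] at h3
    rw [C.act_comp (C.comp a' Γ) b z, C.act_comp (C.comp a' Γ) b, C.act_comp a' Γ, h3,
      C.act_map_zero, C.act_map_zero]
  have hax' := hax x hx.1
  rw [C.act_comp] at hax'
  have hxP : C.act a x ∈ low C D P P.dim := by
    rw [hPY]
    exact low_stable haP hx
  have h4 := h P hPD _ hG hGcl hGG _ hxP
  rw [C.act_comp, C.act_comp, hax'] at h4
  have h5 := hby (C.act Γ x) (by rw [hXY]; exact act_zc hΓ hx.1)
  rw [C.act_comp, h4, C.act_map_zero] at h5
  exact h5.symm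

/-- **Criteria.** -/
theorem tfae₄ (hpt : ∃ P, D P ∧ P.dim = 0) (hL : LefschetzFactors H D) :
    [∃ F : ZFil C, IsBBZero H D F, BlochAll H D, BlochHom H D].TFAE := by
  tfae_have 1 → 2 := fun ⟨_, hF⟩ => hF.blochAll hL
  tfae_have 2 → 1 := fun h => ⟨_, isBBZero_low hpt h⟩
  tfae_have 2 → 3 := fun h X Y hX hY Γ hΓ hcl => h X Y hX hY Γ hΓ fun a _ => by
    rw [hcl]
    exact TheoryData.act_zero _ a
  tfae_have 3 → 2 := fun h X Y hX hY =>
    allAt_of_homAt (n := Y.dim) hL (fun X Y hX hY _ => h X Y hX hY) X Y hX hY rfl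
  tfae_finish

/-- Only the top step is at stake. -/
theorem hom_iff_top (hL : LefschetzFactors H D) (hS : HasSections H D)
    (hP : HasCommonCovers H D) : BlochHom H D ↔ BlochTop H D := by
  constructor
  · exact fun h P hPD Γ hΓ hcl _ => h P P hPD hPD Γ hΓ hcl
  · intro h
    have key : ∀ n : ℕ, HomAt H D n ∧ AllAt H D n := by
      intro n
      induction n using Nat.strong_induction_on with
      | _ n ih =>
        have h1 := homAt_of_eqAt hS (fun m hm => (ih m hm).2) (eqAt_of_top hP h n)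
        exact ⟨h1, allAt_of_homAt hL h1⟩
    exact fun X Y hX hY => (key Y.dim).1 X Y hX hY rfl

end Pool.Agent.X307.ZC
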