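import Pool.Agent.X307.ZC.Nil

/-!
# Nilpotence for a single variety and Chow-Kunneth decompositions
-/

set_option autoImplicit false

open CategoryTheory AlgebraicGeometry

universe u v w

namespace Pool.Agent.X307.ZC

open Pool.Agent.H914 Pool.Agent.H914.VarClass Pool.Agent.H914.VarClass.Obj Pool.Agent.W492.BB
  Pool.Agent.W550.Corr Pool.Agent.TH133 Pool.Agent.X308.S

set_option linter.unusedSectionVars false

variable {k : Type u} [Field k] {𝒱 : VarClass k} {C : TheoryData.{u, v, 0} 𝒱 ℚ}
  [hC : IsChowProj C] {K : Type w} [Field K] {H : WeilTheoryData.{u, v, w} C K}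
  [hH : IsWeilProj H] {D : 𝒱.Obj → Prop} {X : 𝒱.Obj} {F : ZFil C}

include hC hH

omit hH in
/-- The family consisting of one variety. -/
def oneM (C : TheoryData.{u, v, 0} 𝒱 ℚ) [IsChowProj C] (X : 𝒱.Obj) : Mat_ (CorCat C) :=
  ⟨PUnit, fun _ => CorCat.of C X⟩

omit hC hH in
/-- A self-correspondence as a morphism. -/
def mor (C : TheoryData.{u, v, 0} 𝒱 ℚ) [IsChowProj C] (X : 𝒱.Obj) (γ : C.A (X.prod X)) :
    oneM C X ⟶ oneM C X := fun _ _ => γ

lemma mor_comp (γ δ : C.A (X.prod X)) : mor C X γ ≫ mor C X δ = mor C X (C.comp γ δ) := by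
  funext i j
  rw [Mat_.comp_apply]
  exact Fintype.sum_unique (ι := PUnit) _

lemma isComp_list (hX : D X) (l : List (C.A (X.prod X)))
    (hl : ∀ γ ∈ l, C.Deg X.dim γ ∧ H.cl γ = 0) :
    IsComp H D X.dim l.length (mor C X (compList C X l)) := by
  have hM : PureM D X.dim (oneM C X) := fun _ => ⟨hX, rfl⟩
  induction l with
  | nil => exact fun _ _ => dg_mem C X
  | cons γ l ih =>
    have h1 := ih fun γ' h' => hl γ' (List.mem_cons_of_mem _ h')
    have h2 : TrivM H X.dim (mor C X γ) := fun _ _ => hl γ List.mem_cons_self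
    have h3 := IsComp.cons hM h2 hM h1
    rw [mor_comp (H := H)] at h3
    exact h3

/-- **Nilpotence.** -/
theorem nilpotentOfIndex (hF : IsBBZero H D F) (hBS : BlochSrinivas C D) (hX : D X) :
    NilpotentOfIndex H X (nilIndex X.dim) := by
  intro l hl hγ
  have h1 := isComp_list (H := H) hX l hγ
  rw [hl] at h1
  have hM : PureM D X.dim (oneM C X) := fun _ => ⟨hX, rfl⟩
  have h2 := h1.eq_zero hF hBS X.dim hM hM
  exact congr_fun (congr_fun h2 PUnit.unit) PUnit.unit

omit hH in
lemma compList_replicate (a : Cor C X) (n : ℕ) :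
    (compList C X (List.replicate n a) : Cor C X) = a ^ n := by
  induction n with
  | zero => rfl
  | succ n ih =>
    rw [List.replicate_succ, pow_succ, ← ih]
    rfl

/-- Chow-Kunneth decompositions exist if the Kunneth components are algebraic and homologically
trivial correspondences are nilpotent. -/
theorem exists_CK {N : ℕ} (hN : NilpotentOfIndex H X N)
    (hK : ∀ m : ℕ, ∃ p : C.A (X.prod X), C.Deg X.dim p ∧ ∀ (l : ℤ) (a : H.A X),
      H.Deg l a → H.act (H.cl p) a = if l = m then a else 0) : ∃ π, IsCK H X π := by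
  choose p hp hpa using hK
  let f : cor0 C X →+* Module.End K (H.A X) := (actH C X H).comp (cor0 C X).subtype
  have hker : ∀ x ∈ RingHom.ker f, IsNilpotent x := by
    intro x hx
    refine ⟨N, ?_⟩
    have h1 : ∀ a : H.A X, H.act (H.cl (X := X.prod X) (x : Cor C X)) a = 0 := fun a =>
      LinearMap.congr_fun (RingHom.mem_ker.1 hx) a
    have h2 : H.cl (X := X.prod X) (x : Cor C X) = 0 := hom_zero_of_act H h1
    have h3 := hN (List.replicate N (x : Cor C X)) List.length_replicate fun γ hγ => by
      rw [List.eq_of_mem_replicate hγ]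
      exact ⟨x.2, h2⟩
    apply Subtype.ext
    have h4 := compList_replicate (x : Cor C X) N
    rw [h3] at h4
    exact h4.symm
  let q : ℕ → cor0 C X := fun i => ⟨p i, hp i⟩
  have hq : ∀ (i : ℕ) (m : ℤ) (a : H.A X), a ∈ H.gr X m → f (q i) a = if m = i then a else 0 :=
    fun i m a ha => hpa i m a ha
  let e : Fin (2 * X.dim + 1) → Module.End K (H.A X) := fun i => f (q i)
  have he : CompleteOrthogonalIdempotents e := by
    refine ⟨⟨fun i => ?_, fun i j hij => ?_⟩, ?_⟩
    · apply ext_gr H
      intro m a ha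
      change f (q i) (f (q i) a) = f (q i) a
      rw [hq i m a ha]
      split_ifs with h
      · rw [hq i m a ha, if_pos h]
      · rw [map_zero]
    · apply ext_gr H
      intro m a ha
      change f (q i) (f (q j) a) = 0
      rw [hq j m a ha]
      split_ifs with h
      · rw [hq i m a ha, if_neg]
        intro h'
        exact hij (Fin.ext (by omega))
      · rw [map_zero]
    · apply ext_gr H
      intro m a ha
      rw [LinearMap.sum_apply]
      change ∑ i : Fin (2 * X.dim + 1), f (q i) a = a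
      by_cases ha0 : a = 0
      · subst ha0
        simp
      have h0 := nonneg_of_mem H ha ha0
      have h1 : m ≤ 2 * X.dim := by
        by_contra h
        rw [gr_top (H := H) (by omega)] at ha
        exact ha0 ((Submodule.mem_bot _).1 ha)
      obtain ⟨j, rfl⟩ := Int.eq_ofNat_of_zero_le h0
      rw [Finset.sum_eq_single (⟨j, by omega⟩ : Fin (2 * X.dim + 1))]
      · rw [hq j j a ha, if_pos rfl]
      · intro i _ hi
        rw [hq i j a ha, if_neg]
        intro h
        exact hi (Fin.ext (by simpa using (by exact_mod_cast h.symm : (i : ℕ) = j)))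
      · intro h
        exact absurd (Finset.mem_univ _) h
  obtain ⟨e', he', hfe⟩ := CompleteOrthogonalIdempotents.lift_of_isNilpotent_ker f hker he
    fun i => ⟨q i, rfl⟩
  let P : ℕ → Cor C X := fun i => if h : i < 2 * X.dim + 1 then (e' ⟨i, h⟩ : Cor C X) else 0
  refine ⟨P, isCK_of (P := P) ?_ ?_ ?_ ?_ ?_⟩
  · intro i
    change (if h : i < 2 * X.dim + 1 then (e' ⟨i, h⟩ : Cor C X) else 0) ∈ cor0 C X
    split_ifs with h
    · exact (e' ⟨i, h⟩).2
    · exact (cor0 C X).zero_mem
  · intro i hi
    exact dif_neg (by omega)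
  · intro i j
    change (if h : i < 2 * X.dim + 1 then (e' ⟨i, h⟩ : Cor C X) else 0) *
      (if h : j < 2 * X.dim + 1 then (e' ⟨j, h⟩ : Cor C X) else 0) =
      if i = j then (if h : i < 2 * X.dim + 1 then (e' ⟨i, h⟩ : Cor C X) else 0) else 0
    by_cases hi : i < 2 * X.dim + 1
    · by_cases hj : j < 2 * X.dim + 1
      · rw [dif_pos hi, dif_pos hj]
        have h1 := he'.1.mul_eq ⟨i, hi⟩ ⟨j, hj⟩
        have h2 : ((e' ⟨i, hi⟩ * e' ⟨j, hj⟩ : cor0 C X) : Cor C X) =
          (e' ⟨i, hi⟩ : Cor C X) * (e' ⟨j, hj⟩ : Cor C X) := rfl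
        rw [← h2, h1]
        by_cases hij : i = j
        · subst hij
          simp
        · have h3 : (⟨i, hi⟩ : Fin (2 * X.dim + 1)) ≠ ⟨j, hj⟩ := fun h => hij (Fin.mk.inj h)
          rw [if_neg h3, if_neg hij]
          rfl
      · rw [dif_neg hj, mul_zero]
        have : i ≠ j := fun h => hj (h ▸ hi)
        rw [if_neg this]
    · rw [dif_neg hi, zero_mul]
      split_ifs <;> rfl
  · have h1 := he'.complete
    have h2 : ((∑ i, e' i : cor0 C X) : Cor C X) = ((1 : cor0 C X) : Cor C X) := by rw [h1]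
    rw [Finset.sum_range]
    have h3 : ∀ i : Fin (2 * X.dim + 1), P i = (e' i : Cor C X) := fun i => dif_pos i.2
    rw [Finset.sum_congr rfl fun i _ => h3 i]
    exact (map_sum (cor0 C X).subtype _ _).symm.trans h2
  · intro i m a ha
    by_cases hi : i < 2 * X.dim + 1
    · have h1 : P i = (e' ⟨i, hi⟩ : Cor C X) := dif_pos hi
      rw [h1]
      have h2 : f (e' ⟨i, hi⟩) = e ⟨i, hi⟩ := congr_fun hfe _
      change f (e' ⟨i, hi⟩) a = _
      rw [h2]
      exact hq i m a ha
    · have h1 : P i = 0 := dif_neg hi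
      rw [h1, map_zero, LinearMap.zero_apply]
      split_ifs with h
      · rw [h, gr_top (H := H) (by omega)] at ha
        exact ((Submodule.mem_bot _).1 ha).symm
      · rfl

end Pool.Agent.X307.ZC
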