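import Pool.Agent.X307.ZC.Defs
import Pool.Agent.X308.S.Key
import Pool.Agent.TH133.Ext

/-!
# The zero-cycles killed by all correspondences to varieties of small dimension
-/

set_option autoImplicit false

open CategoryTheory AlgebraicGeometry

universe u v w

namespace Pool.Agent.X307.ZC

open Pool.Agent.H914 Pool.Agent.H914.VarClass Pool.Agent.H914.VarClass.Obj Pool.Agent.W492.BB
  Pool.Agent.W550.Corr Pool.Agent.TH133 Pool.Agent.X308.S

set_option linter.unusedSectionVars false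

variable {k : Type u} [Field k] {𝒱 : VarClass k}

section chow

variable {C : TheoryData.{u, v, 0} 𝒱 ℚ} [hC : IsChowProj C] {D : 𝒱.Obj → Prop} {X Y Z W : 𝒱.Obj}

omit hC in
variable (C) in
/-- The group `G^n CH_0(X)`. -/
noncomputable def low (D : 𝒱.Obj → Prop) (X : 𝒱.Obj) (n : ℕ) : Submodule ℚ (C.A X) where
  carrier := {x | Low C D n x}
  zero_mem' := ⟨Submodule.zero_mem _, fun _ _ _ _ _ => map_zero (C.actL _)⟩
  add_mem' := fun {x y} hx hy => ⟨Submodule.add_mem _ hx.1 hy.1, fun Y hY hn Γ hΓ => by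
    have h := map_add (C.actL Γ) x y
    rw [C.actL_apply, C.actL_apply, C.actL_apply, hx.2 Y hY hn Γ hΓ, hy.2 Y hY hn Γ hΓ,
      add_zero] at h
    exact h⟩
  smul_mem' := fun q x hx => ⟨Submodule.smul_mem _ q hx.1, fun Y hY hn Γ hΓ => by
    have h := map_smul (C.actL Γ) q x
    rw [C.actL_apply, C.actL_apply, hx.2 Y hY hn Γ hΓ, smul_zero] at h
    exact h⟩

include hC

/-- Correspondences of degree `dim Y` map zero-cycles to zero-cycles. -/
lemma act_zc {Γ : C.A (X.prod Y)} (hΓ : C.Deg Y.dim Γ) {x : C.A X} (hx : C.Deg X.dim x) :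
    C.Deg Y.dim (C.act Γ x) := act_deg hΓ hx (by ring)

lemma comp_zc {Γ : C.A (X.prod Y)} {Δ : C.A (Y.prod Z)} (hΓ : C.Deg Y.dim Γ)
    (hΔ : C.Deg Z.dim Δ) : C.Deg Z.dim (C.comp Γ Δ) := comp_deg hΓ hΔ (by ring)

lemma mem_low {n : ℕ} {x : C.A X} : x ∈ low C D X n ↔ C.Deg X.dim x ∧ ∀ Y : 𝒱.Obj, D Y →
    Y.dim < n → ∀ Γ : C.A (X.prod Y), C.Deg Y.dim Γ → C.act Γ x = 0 := Iff.rfl

lemma low_anti {m n : ℕ} (h : m ≤ n) : low C D X n ≤ low C D X m :=
  fun _ hx => ⟨hx.1, fun Y hY hm Γ hΓ => hx.2 Y hY (hm.trans_le h) Γ hΓ⟩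

lemma low_zero {x : C.A X} : x ∈ low C D X 0 ↔ C.Deg X.dim x :=
  ⟨fun hx => hx.1, fun hx => ⟨hx, fun _ _ h => absurd h (Nat.not_lt_zero _)⟩⟩

lemma low_stable {Γ : C.A (X.prod Y)} (hΓ : C.Deg Y.dim Γ) {n : ℕ} {x : C.A X}
    (hx : x ∈ low C D X n) : C.act Γ x ∈ low C D Y n :=
  ⟨act_zc hΓ hx.1, fun Z hZ hn Δ hΔ => by
    rw [← C.act_comp]
    exact hx.2 Z hZ hn _ (comp_zc hΓ hΔ)⟩

lemma low_top (hX : D X) {n : ℕ} (hn : X.dim < n) {x : C.A X} (hx : x ∈ low C D X n) : x = 0 := by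
  have h := hx.2 X hX hn (dg C X) (dg_mem C X)
  rwa [act_dg] at h

lemma thru_mem {m : ℕ} {Φ : C.A (X.prod Y)} (hΦ : Φ ∈ thru C D X Y m) : C.Deg Y.dim Φ := by
  have h : thru C D X Y m ≤ C.gr (X.prod Y) Y.dim := by
    refine Submodule.span_le.2 ?_
    rintro _ ⟨Z, a, b, _, _, ha, hb, rfl⟩
    exact comp_zc ha hb
  exact h hΦ

lemma thru_kills {m n : ℕ} (hmn : m < n) {Φ : C.A (X.prod Y)} (hΦ : Φ ∈ thru C D X Y m)
    {x : C.A X} (hx : x ∈ low C D X n) : C.act Φ x = 0 := by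
  have h : thru C D X Y m ≤ LinearMap.ker ((actB C).flip x) := by
    refine Submodule.span_le.2 ?_
    rintro _ ⟨Z, a, b, hZ, hm, ha, hb, rfl⟩
    change C.act (C.comp a b) x = 0
    rw [C.act_comp, hx.2 Z hZ (hm.trans_lt hmn) a ha, C.act_map_zero]
  exact h hΦ

/-- The transposes of correspondences through varieties of small dimension kill all
zero-cycles. -/
lemma tp_thru_kills {m : ℕ} {Φ : C.A (X.prod Y)} (hm : m < Y.dim) (hΦ : Φ ∈ thru C D X Y m)
    (hXY : X.dim = Y.dim) {y : C.A Y} (hy : C.Deg Y.dim y) : C.act (tp C Φ) y = 0 := by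
  have h : thru C D X Y m ≤ LinearMap.ker (((actB C).flip y) ∘ₗ
      (C.pull (sw Y X)).toLinearMap) := by
    refine Submodule.span_le.2 ?_
    rintro _ ⟨Z, a, b, hZ, hm', ha, hb, rfl⟩
    change C.act (tp C (C.comp a b)) y = 0
    have h1 : C.act (tp C b) y = 0 := by
      have h2 : C.act (tp C b) y ∈ C.gr Z Y.dim := act_deg (tp_mem C hb) hy (by ring)
      exact zero_of_top h2 (by omega)
    rw [tp_comp', C.act_comp, h1, C.act_map_zero]
  exact h hΦ

end chow

section weil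

variable {C : TheoryData.{u, v, 0} 𝒱 ℚ} [hC : IsChowProj C] {K : Type w} [Field K]
  {H : WeilTheoryData.{u, v, w} C K} [hH : IsWeilProj H] {D : 𝒱.Obj → Prop} {X Y Z W : 𝒱.Obj}

include hC hH

/-- Zero-cycles of degree zero are homologically trivial. -/
lemma cl_of_hasDegree_zero {x : C.A X} (hx : C.Deg X.dim x) (h : HasDegree C x 0) :
    H.cl x = 0 := by
  obtain ⟨a, _, ha1, _⟩ := exists_deg_one C X
  have h0 : H.push (snd X X) (H.pull (fst X X) (H.cl x)) = 0 := by
    have h1 := (h X).1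
    rw [zero_smul] at h1
    rw [← H.cl_pull, ← H.cl_push, h1, map_zero]
  have h2 : H.push (fst X X) (H.pull (snd X X) (H.cl a)) = 1 := by
    rw [← H.cl_pull, ← H.cl_push, ha1 X, map_one]
  have h3 : H.tr X (H.cl x) = 0 := by
    have h4 := H.proj_left (fst X X) (H.pull (snd X X) (H.cl a)) (H.cl x)
    have h5 := H.proj_right (snd X X) (H.pull (fst X X) (H.cl x)) (H.cl a)
    rw [h2, mul_one] at h4
    rw [h0, zero_mul] at h5
    rw [← h4, H.tr_push, ← H.tr_push (snd X X), h5, map_zero]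
  apply H.nondeg
  have key : (H.tr X ∘ₗ LinearMap.mulLeft K (H.cl x)) = 0 := by
    apply ext_gr H
    intro j b hb
    rw [LinearMap.comp_apply, LinearMap.mulLeft_apply, LinearMap.zero_apply]
    by_cases hj : j = 0
    · subst hj
      obtain ⟨c, rfl⟩ := hH.gr_zero X b hb
      rw [mul_smul_comm, mul_one, map_smul, h3, smul_zero]
    · exact tr_zero H (H.mul_mem (H.cl_mem hx) hb) (by omega)
  intro b
  exact LinearMap.congr_fun key b

/-- The first step: the zero-cycles killed by the correspondences to points are those of degree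
zero. -/
lemma low_one (hpt : ∃ P, D P ∧ P.dim = 0) {x : C.A X} :
    x ∈ low C D X 1 ↔ C.Deg X.dim x ∧ H.cl x = 0 := by
  constructor
  · rintro ⟨hx, h⟩
    refine ⟨hx, ?_⟩
    obtain ⟨P, hP, hP0⟩ := hpt
    obtain ⟨q, hq⟩ := exists_hasDegree hx
    have h1 := h P hP (by omega) 1 (by rw [hP0]; exact C.one_mem _)
    rw [C.act_apply, one_mul, (hq P).1] at h1
    have h2 : q = 0 := by
      by_contra hne
      have h3 : (1 : C.A P) = 0 := by
        rw [← one_smul ℚ (1 : C.A P), ← inv_mul_cancel₀ hne, mul_smul, h1, smul_zero]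
      have h4 : (1 : H.A P) = 0 := by rw [← map_one H.cl, h3, map_zero]
      exact hH.one_ne_zero P h4
    rw [h2] at hq
    exact cl_of_hasDegree_zero hx hq
  · rintro ⟨hx, h⟩
    refine ⟨hx, fun Y _ hY Γ hΓ => ?_⟩
    have hY0 : Y.dim = 0 := by omega
    rw [hY0] at hΓ
    obtain ⟨q, rfl⟩ := hC.gr_zero _ Γ hΓ
    have h1 := (hasDegree_zero_of_cl H hx h Y).1
    rw [zero_smul] at h1
    rw [C.act_apply, smul_mul_assoc, one_mul, map_smul, h1, smul_zero]

lemma kills_comp_left {Γ : C.A (X.prod Y)} {m : ℤ} (h : Kills H Γ m) (Δ : C.A (Y.prod Z)) :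
    Kills H (C.comp Γ Δ) m := fun a ha => by
  rw [actH_comp, h a ha, TheoryData.act_map_zero]

lemma kills_comp_right {Γ : C.A (X.prod Y)} {Δ : C.A (Y.prod Z)} {m j : ℤ}
    (hΓ : C.Deg Y.dim Γ) (h : Kills H Δ j) (hj : m + 2 * ((Y.dim : ℤ) - X.dim) = j) :
    Kills H (C.comp Γ Δ) m := fun a ha => by
  rw [actH_comp]
  exact h _ (actH_deg hΓ ha hj)

/-- The transpose of a self-correspondence acting as zero on `H^(2 dim X - j)(X)` acts as zero on
`H^j(X)`. -/
lemma kills_tp {Γ : C.A (X.prod X)} (hΓ : C.Deg X.dim Γ) {j : ℤ}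
    (h : Kills H Γ (2 * X.dim - j)) : Kills H (tp C Γ) j := by
  intro b hb
  apply H.nondeg
  have hd : H.act (H.cl (tp C Γ)) b ∈ H.gr X j := actH_deg (tp_mem C hΓ) hb (by ring)
  have key : (H.tr X ∘ₗ LinearMap.mulLeft K (H.act (H.cl (tp C Γ)) b)) = 0 := by
    apply ext_gr H
    intro i a ha
    rw [LinearMap.comp_apply, LinearMap.mulLeft_apply, LinearMap.zero_apply]
    by_cases hi : i = 2 * X.dim - j
    · rw [tr_act' H, h a (by rwa [hi] at ha), mul_zero, map_zero]
    · exact tr_zero H (H.mul_mem hd ha) (by omega)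
  intro a
  exact LinearMap.congr_fun key a

/-- A correspondence `U` on `X` which acts as zero on `H^(2 dim X - j)(X)` for `j < n`, and as the
identity on the zero-cycles killed by the correspondences to varieties of dimension less than `n`;
its transpose acts as the identity on all zero-cycles. -/
lemma exists_cut (hL : LefschetzFactors H D) (hX : D X) (n : ℕ) (hn : n ≤ X.dim) :
    ∃ U : C.A (X.prod X), C.Deg X.dim U ∧ (∀ j : ℕ, j < n → Kills H U (2 * X.dim - j)) ∧
      (∀ x ∈ low C D X n, C.act U x = x) ∧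
      ∀ y : C.A X, C.Deg X.dim y → C.act (tp C U) y = y := by
  induction n with
  | zero =>
    refine ⟨dg C X, dg_mem C X, fun j hj => absurd hj (Nat.not_lt_zero _),
      fun x _ => act_dg C x, fun y _ => ?_⟩
    rw [tp_dg, act_dg]
  | succ n ih =>
    obtain ⟨U, hU, hk, hl, ht⟩ := ih (by omega)
    obtain ⟨Φ, hΦ, hΦc⟩ := hL X hX n (by omega)
    have hΦm : C.Deg X.dim Φ := thru_mem hΦ
    have hdm : C.Deg X.dim (dg C X - Φ) := Submodule.sub_mem _ (dg_mem C X) hΦm
    have hkill : Kills H (dg C X - Φ) (2 * X.dim - n) := fun c hc => by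
      rw [map_sub, H.act_sub, actH_dg, hΦc c hc, sub_self]
    refine ⟨C.comp U (dg C X - Φ), comp_zc hU hdm, fun j hj => ?_, fun x hx => ?_, fun y hy => ?_⟩
    · rcases Nat.lt_succ_iff_lt_or_eq.1 hj with h | h
      · exact kills_comp_left (hk j h) _
      · subst h
        exact kills_comp_right hU hkill (by ring)
    · rw [C.act_comp, hl x (low_anti (Nat.le_succ n) hx), C.act_sub, act_dg,
        thru_kills (Nat.lt_succ_self n) hΦ hx, sub_zero]
    · rw [tp_comp', C.act_comp, tp_sub, tp_dg, C.act_sub, act_dg,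
        tp_thru_kills (by omega) hΦ rfl hy, sub_zero, ht y hy]

end weil

end Pool.Agent.X307.ZC
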