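import Pool.Agent.X307.ZC.Equiv
import Pool.Agent.X308.S.BB

/-!
# Exterior products and Chow-Kunneth decompositions
-/

set_option autoImplicit false

open CategoryTheory AlgebraicGeometry

universe u v w

namespace Pool.Agent.X307.ZC

open Pool.Agent.H914 Pool.Agent.H914.VarClass Pool.Agent.H914.VarClass.Obj Pool.Agent.W492.BB
  Pool.Agent.W550.Corr Pool.Agent.TH133 Pool.Agent.X308.S

set_option linter.unusedSectionVars false

variable {k : Type u} [Field k] {𝒱 : VarClass k} {C : TheoryData.{u, v, 0} 𝒱 ℚ}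
  [hC : IsChowProj C] {K : Type w} [Field K] {H : WeilTheoryData.{u, v, w} C K}
  [hH : IsWeilProj H] {D : 𝒱.Obj → Prop} {X Y Z W : 𝒱.Obj}

include hC hH

/-- If `U` kills `H^(2 dim X - j)(X)` for `j < m` and `V` kills `H^(2 dim Y - i)(Y)` for `i < n`,
then `U × V` kills `H^(2 dim (X × Y) - l)(X × Y)` for `l < m + n`. -/
lemma kills_tens {U : C.A (X.prod X)} {V : C.A (Y.prod Y)} {m n : ℕ}
    (hU : ∀ j : ℕ, j < m → Kills H U (2 * X.dim - j))
    (hV : ∀ j : ℕ, j < n → Kills H V (2 * Y.dim - j)) {l : ℕ} (hl : l < m + n) :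
    Kills H (tens C U V) (2 * (X.prod Y).dim - l) := by
  intro c hc
  have h0 := H.kunneth X Y _ hc
  have h1 : (Submodule.span K {c | ∃ (p : ℤ) (a : H.A X) (b : H.A Y), a ∈ H.gr X p ∧
      b ∈ H.gr Y (2 * (X.prod Y).dim - l - p) ∧
      c = H.pull (fst X Y) a * H.pull (snd X Y) b}) ≤
      LinearMap.ker (H.actL (H.cl (tens C U V))) := by
    refine Submodule.span_le.2 ?_
    rintro _ ⟨p, a, b, ha, hb, rfl⟩
    change H.act (H.cl (tens C U V)) (H.ext a b) = 0
    rw [actH_tens_ext]
    have hcases : H.act (H.cl U) a = 0 ∨ H.act (H.cl V) b = 0 := by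
      rcases lt_or_ge (2 * (X.dim : ℤ)) p with h2 | h2
      · left
        rw [gr_top (H := H) h2] at ha
        rw [(Submodule.mem_bot _).1 ha, TheoryData.act_map_zero]
      · obtain ⟨j, hj⟩ := Int.eq_ofNat_of_zero_le (show 0 ≤ 2 * (X.dim : ℤ) - p by omega)
        have hp : p = 2 * (X.dim : ℤ) - j := by omega
        rcases lt_or_ge j m with h3 | h3
        · left
          rw [hp] at ha
          exact hU j h3 a ha
        · right
          rw [dim_prod] at hb
          push_cast at hb
          rcases lt_or_ge (2 * (Y.dim : ℤ)) (2 * ((X.dim : ℤ) + Y.dim) - l - p) with h4 | h4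
          · rw [gr_top (H := H) h4] at hb
            rw [(Submodule.mem_bot _).1 hb, TheoryData.act_map_zero]
          · obtain ⟨i, hi⟩ := Int.eq_ofNat_of_zero_le
              (show 0 ≤ 2 * (Y.dim : ℤ) - (2 * ((X.dim : ℤ) + Y.dim) - l - p) by omega)
            have hq : 2 * ((X.dim : ℤ) + Y.dim) - l - p = 2 * (Y.dim : ℤ) - i := by omega
            rw [hq] at hb
            exact hV i (by omega) b hb
    rcases hcases with h2 | h2
    · rw [h2]
      exact H.ext_zero_left _
    · rw [h2]
      exact H.ext_zero_right _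
  exact h1 h0

/-- **Exterior products.** -/
theorem ext_mem_low (hL : LefschetzFactors H D) (h : BlochAll H D) (hX : D X) (hY : D Y)
    (hXY : D (X.prod Y)) {m n : ℕ} {x : C.A X} {y : C.A Y} (hx : x ∈ low C D X m)
    (hy : y ∈ low C D Y n) : C.ext x y ∈ low C D (X.prod Y) (m + n) := by
  rcases lt_or_ge X.dim m with hm | hm
  · rw [low_top hX hm hx, C.ext_zero_left]
    exact Submodule.zero_mem _
  rcases lt_or_ge Y.dim n with hn | hn
  · rw [low_top hY hn hy, C.ext_zero_right]
    exact Submodule.zero_mem _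
  obtain ⟨U, hU, hUk, hUx, -⟩ := exists_cut hL hX m hm
  obtain ⟨V, hV, hVk, hVy, -⟩ := exists_cut hL hY n hn
  have hT : C.Deg (X.prod Y).dim (tens C U V) := by
    have := tens_mem C hU hV
    rwa [dim_prod, Nat.cast_add]
  have hfix : C.act (tens C U V) (C.ext x y) = C.ext x y := by
    rw [act_tens_ext C U V (fun f c => ch_comm C _ _), hUx x hx, hVy y hy]
  have h0 : C.Deg (X.prod Y).dim (C.ext x y) := by
    have := ext_mem' (C := C) hx.1 hy.1
    rwa [dim_prod, Nat.cast_add]
  have key : ∀ l : ℕ, l ≤ m + n → C.ext x y ∈ low C D (X.prod Y) l := by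
    intro l
    induction l with
    | zero => exact fun _ => low_zero.2 h0
    | succ l ih =>
      intro hl
      have h1 : AllAt H D l := fun X Y hX hY _ => h X Y hX hY
      have h2 := h1.shift hXY hT (kills_tens hUk hVk (by omega)) (ih (by omega))
      rwa [hfix] at h2
  exact key _ le_rfl

variable {F : ZFil C} {π : ℕ → C.A (X.prod X)}

lemma IsBBZero.proj_shift (hF : IsBBZero H D F) (hX : D X) (hπ : IsCK H X π) {n w : ℕ}
    (hw : w + n ≠ 2 * X.dim) {x : C.A X} (hx : x ∈ F X n) : C.act (π w) x ∈ F X (n + 1) :=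
  hF.shift X X hX hX _ (hπ.deg w) n (fun a ha => hπ.act_ne w (2 * X.dim - n) a (by omega) ha) x hx

lemma IsBBZero.proj_zero (hF : IsBBZero H D F) (hX : D X) (hπ : IsCK H X π) {w : ℕ} {x : C.A X}
    (n : ℕ) (hn : 2 * X.dim < w + n) (hx : x ∈ F X n) : C.act (π w) x = 0 := by
  have key : ∀ m : ℕ, C.act (π w) x ∈ F X (n + m) := by
    intro m
    induction m with
    | zero => exact hF.stable X X hX hX _ (hπ.deg w) n x hx
    | succ m ih =>
      have h1 := hF.proj_shift hX hπ (w := w) (by omega) ih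
      rw [← C.act_comp, hπ.idem] at h1
      exact h1
  apply hF.top X hX
  exact hF.anti' hX (by omega) (key (X.dim + 1))

lemma IsBBZero.proj_mem (hF : IsBBZero H D F) (hX : D X) (hπ : IsCK H X π) {w : ℕ} {x : C.A X}
    (hx : C.Deg X.dim x) : ∀ n, w + n ≤ 2 * X.dim → C.act (π w) x ∈ F X n := by
  intro n
  induction n with
  | zero => exact fun _ => hF.stable X X hX hX _ (hπ.deg w) 0 x ((hF.zero X hX x).2 hx)
  | succ n ih =>
    intro hn
    have h1 := hF.proj_shift hX hπ (w := w) (by omega) (ih (by omega))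
    rw [← C.act_comp, hπ.idem] at h1
    exact h1

/-- A Bloch-Beilinson filtration on zero-cycles is the filtration attached to any Chow-Kunneth
decomposition. -/
theorem IsBBZero.eq_ckFil (hF : IsBBZero H D F) (hX : D X) (hπ : IsCK H X π) (n : ℕ) :
    F X n = ckFil C π X.dim n := by
  ext x
  rw [hπ.mem_ckFil]
  constructor
  · intro hx
    exact ⟨hF.deg hX hx, fun j hj => hF.proj_zero hX hπ n (by omega) hx⟩
  · rintro ⟨hx, h⟩
    rw [sum_act hπ x]
    refine Submodule.sum_mem _ fun w _ => ?_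
    by_cases hw : 2 * X.dim + 1 - n ≤ w
    · rw [h w hw]
      exact Submodule.zero_mem _
    · exact hF.proj_mem hX hπ hx n (by omega)

end Pool.Agent.X307.ZC
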