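import Pool.Agent.X307.ZC.Mult
import Mathlib.CategoryTheory.Preadditive.Mat

/-!
# Nilpotence of homologically trivial correspondences
-/

set_option autoImplicit false

open CategoryTheory AlgebraicGeometry

universe u v w

namespace Pool.Agent.X307.ZC

open Pool.Agent.H914 Pool.Agent.H914.VarClass Pool.Agent.H914.VarClass.Obj Pool.Agent.W492.BB
  Pool.Agent.W550.Corr Pool.Agent.TH133 Pool.Agent.X308.S

set_option linter.unusedSectionVars false

variable {k : Type u} [Field k] {𝒱 : VarClass k}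

/-- The category of varieties and correspondences of all degrees. -/
def CorCat (_ : TheoryData.{u, v, 0} 𝒱 ℚ) : Type _ := 𝒱.Obj

/-- The object of the category of correspondences. -/
def CorCat.of (C : TheoryData.{u, v, 0} 𝒱 ℚ) (X : 𝒱.Obj) : CorCat C := X

/-- The underlying variety. -/
def CorCat.var {C : TheoryData.{u, v, 0} 𝒱 ℚ} (X : CorCat C) : 𝒱.Obj := X

variable (C : TheoryData.{u, v, 0} 𝒱 ℚ) [hC : IsChowProj C]

noncomputable instance : Category.{v} (CorCat C) where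
  Hom X Y := C.A (Obj.prod (CorCat.var X) (CorCat.var Y))
  id X := dg C (CorCat.var X)
  comp f g := C.comp f g
  id_comp f := dg_comp C f
  comp_id f := comp_dg C f
  assoc f g h := comp_assoc C f g h

noncomputable instance : Preadditive (CorCat C) where
  homGroup X Y := inferInstanceAs (AddCommGroup (C.A (Obj.prod (CorCat.var X) (CorCat.var Y))))
  add_comp _ _ _ f f' g := add_comp C f f' g
  comp_add _ _ _ f g g' := comp_add C f g g'

variable {C} {K : Type w} [Field K] {H : WeilTheoryData.{u, v, w} C K}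
  [hH : IsWeilProj H] {D : 𝒱.Obj → Prop}

/-- The class of a morphism. -/
def en {X Y : CorCat C} (f : X ⟶ Y) : C.A (Obj.prod X.var Y.var) := f

/-- A class as a morphism. -/
def toHom {X Y : CorCat C} (x : C.A (Obj.prod X.var Y.var)) : X ⟶ Y := x

lemma en_comp {X Y Z : CorCat C} (f : X ⟶ Y) (g : Y ⟶ Z) : en (f ≫ g) = C.comp (en f) (en g) := rfl
lemma en_id (X : CorCat C) : en (𝟙 X) = dg C X.var := rfl
lemma en_zero {X Y : CorCat C} : en (0 : X ⟶ Y) = 0 := rfl
lemma en_add {X Y : CorCat C} (f g : X ⟶ Y) : en (f + g) = en f + en g := rfl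

/-- The class of a morphism as an additive map. -/
def enH (X Y : CorCat C) : (X ⟶ Y) →+ C.A (Obj.prod X.var Y.var) where
  toFun := en
  map_zero' := rfl
  map_add' _ _ := rfl

lemma en_sum {X Y : CorCat C} {ι : Type*} (s : Finset ι) (f : ι → (X ⟶ Y)) :
    en (∑ i ∈ s, f i) = ∑ i ∈ s, en (f i) := map_sum (enH X Y) f s

/-- Finite families of varieties of dimension `d` of the class `D`. -/
def PureM (D : 𝒱.Obj → Prop) (d : ℕ) (M : Mat_ (CorCat C)) : Prop :=
  ∀ i, D (M.X i).var ∧ (M.X i).var.dim = d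

/-- All entries have codimension `e`. -/
def DegM (e : ℤ) {M N : Mat_ (CorCat C)} (f : M ⟶ N) : Prop := ∀ i j, C.Deg e (en (f i j))

/-- All entries have codimension `d` and are homologically trivial. -/
def TrivM (H : WeilTheoryData.{u, v, w} C K) (d : ℕ) {M N : Mat_ (CorCat C)} (f : M ⟶ N) : Prop :=
  ∀ i j, C.Deg d (en (f i j)) ∧ H.cl (en (f i j)) = 0

lemma DegM.comp {d : ℕ} {M N P : Mat_ (CorCat C)} (hN : PureM D d N) {e e' j : ℤ} {f : M ⟶ N}
    {g : N ⟶ P} (hf : DegM e f) (hg : DegM e' g) (hj : e + e' - d = j) : DegM j (f ≫ g) := by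
  intro a b
  rw [Mat_.comp_apply, en_sum]
  refine Submodule.sum_mem _ fun c _ => ?_
  rw [en_comp]
  exact comp_deg (hf a c) (hg c b) (by rw [(hN c).2]; exact hj)

include hH in
lemma TrivM.comp_left {M N P : Mat_ (CorCat C)} {f : M ⟶ N}
    {g : N ⟶ P} (hf : ∀ i j, H.cl (en (f i j)) = 0) : ∀ i j, H.cl (en ((f ≫ g) i j)) = 0 := by
  intro a b
  rw [Mat_.comp_apply, en_sum, map_sum]
  refine Finset.sum_eq_zero fun c _ => ?_
  rw [en_comp, cl_comp, hf, zero_comp H.toTheoryData]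

include hH in
lemma TrivM.comp_right {M N P : Mat_ (CorCat C)} {f : M ⟶ N}
    {g : N ⟶ P} (hg : ∀ i j, H.cl (en (g i j)) = 0) : ∀ i j, H.cl (en ((f ≫ g) i j)) = 0 := by
  intro a b
  rw [Mat_.comp_apply, en_sum, map_sum]
  refine Finset.sum_eq_zero fun c _ => ?_
  rw [en_comp, cl_comp, hg, comp_zero H.toTheoryData]

/-- The morphism `f` is a composition of `n` homologically trivial correspondences of degree zero
between families of varieties of dimension `d`. -/
def IsComp (H : WeilTheoryData.{u, v, w} C K) (D : 𝒱.Obj → Prop) (d : ℕ) :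
    ℕ → ∀ {M N : Mat_ (CorCat C)}, (M ⟶ N) → Prop
  | 0, _, _, f => DegM d f
  | n + 1, M, N, f => ∃ (P : Mat_ (CorCat C)) (g : M ⟶ P) (h : P ⟶ N), PureM D d P ∧
      IsComp H D d n g ∧ TrivM H d h ∧ f = g ≫ h

lemma IsComp.deg {d n : ℕ} {M N : Mat_ (CorCat C)} {f : M ⟶ N} (hf : IsComp H D d n f) :
    DegM d f := by
  induction n generalizing N with
  | zero => exact hf
  | succ n ih =>
    obtain ⟨P, g, h, hP, hg, hh, rfl⟩ := hf
    exact (ih hg).comp hP (fun i j => (hh i j).1) (by ring)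

include hH in
lemma IsComp.triv {d n : ℕ} {M N : Mat_ (CorCat C)} {f : M ⟶ N} (hf : IsComp H D d (n + 1) f) :
    TrivM H d f := by
  intro i j
  refine ⟨hf.deg i j, ?_⟩
  obtain ⟨P, g, h, hP, hg, hh, rfl⟩ := hf
  exact TrivM.comp_right (fun i j => (hh i j).2) i j

lemma DegM.id {d : ℕ} {M : Mat_ (CorCat C)} (hM : PureM D d M) : DegM d (𝟙 M) := by
  intro i j
  rw [Mat_.id_apply]
  split_ifs with h
  · subst h
    rw [eqToHom_refl, en_id, ← (hM i).2]
    exact dg_mem C _
  · exact Submodule.zero_mem _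

/-- Splitting a composition. -/
lemma IsComp.split {d m n : ℕ} {M N : Mat_ (CorCat C)} (hN : PureM D d N) {f : M ⟶ N}
    (hf : IsComp H D d (m + n) f) : ∃ (P : Mat_ (CorCat C)) (g : M ⟶ P) (h : P ⟶ N),
      PureM D d P ∧ IsComp H D d m g ∧ IsComp H D d n h ∧ f = g ≫ h := by
  induction n generalizing N with
  | zero => exact ⟨N, f, 𝟙 N, hN, hf, DegM.id hN, (Category.comp_id f).symm⟩
  | succ n ih =>
    obtain ⟨P, g, h, hP, hg, hh, rfl⟩ := hf
    obtain ⟨Q, g', h', hQ, hg', hh', rfl⟩ := ih hP hg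
    exact ⟨Q, g', h' ≫ h, hQ, hg', ⟨P, h', h, hP, hh', hh, rfl⟩, Category.assoc _ _ _⟩

include hH in
/-- A homologically trivial correspondence followed by a composition. -/
lemma IsComp.cons {d n : ℕ} {M N P : Mat_ (CorCat C)} (hM : PureM D d M) {f : M ⟶ P}
    (hf : TrivM H d f) {g : P ⟶ N} (hP : PureM D d P) (hg : IsComp H D d n g) :
    IsComp H D d (n + 1) (f ≫ g) := by
  induction n generalizing N with
  | zero =>
    refine ⟨M, 𝟙 M, f ≫ g, hM, DegM.id hM, fun i j => ⟨?_, ?_⟩, (Category.id_comp _).symm⟩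
    · exact DegM.comp hP (fun i j => (hf i j).1) hg (by ring) i j
    · exact TrivM.comp_left (fun i j => (hf i j).2) i j
  | succ n ih =>
    obtain ⟨Q, g', h, hQ, hg', hh, rfl⟩ := hg
    exact ⟨Q, f ≫ g', h, hQ, ih hg', hh, (Category.assoc _ _ _).symm⟩

/-! ### The action on zero-cycles -/

variable {F : ZFil C}

include hH in
lemma IsComp.act_mem (hF : IsBBZero H D F) {d n : ℕ} {M N : Mat_ (CorCat C)} (hM : PureM D d M)
    (hN : PureM D d N) {f : M ⟶ N} (hf : IsComp H D d n f) (i : M.ι) (j : N.ι) {m : ℕ}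
    {x : C.A (M.X i).var} (hx : x ∈ F (M.X i).var m) :
    C.act (en (f i j)) x ∈ F (N.X j).var (m + n) := by
  induction n generalizing N with
  | zero =>
    refine hF.stable _ _ (hM i).1 (hN j).1 _ ?_ m x hx
    have := hf i j
    rwa [(hN j).2]
  | succ n ih =>
    obtain ⟨P, g, h, hP, hg, hh, rfl⟩ := hf
    rw [Mat_.comp_apply, en_sum, act_sum]
    refine Submodule.sum_mem _ fun c _ => ?_
    rw [en_comp, C.act_comp]
    have h1 := ih hP hg c
    refine hF.shift _ _ (hP c).1 (hN j).1 _ ?_ _ ?_ _ h1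
    · rw [(hN j).2]
      exact (hh c j).1
    · intro a _
      rw [(hh c j).2]
      exact TheoryData.act_zero _ a

include hH in
/-- A composition of `d + 1` homologically trivial correspondences between varieties of dimension
`d` kills all zero-cycles. -/
lemma IsComp.kills (hF : IsBBZero H D F) {d : ℕ} {M N : Mat_ (CorCat C)} (hM : PureM D d M)
    (hN : PureM D d N) {f : M ⟶ N} (hf : IsComp H D d (d + 1) f) (i : M.ι) (j : N.ι)
    {x : C.A (M.X i).var} (hx : C.Deg (M.X i).var.dim x) : C.act (en (f i j)) x = 0 := by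
  have h1 := hf.act_mem hF hM hN i j ((hF.zero _ (hM i).1 x).2 hx)
  rw [zero_add, ← (hN j).2] at h1
  exact hF.top _ (hN j).1 _ h1

/-! ### Factorisation through varieties of smaller dimension -/

/-- The morphisms factoring through families of varieties of dimension `d`. -/
def Fac (D : 𝒱.Obj → Prop) (d : ℕ) {M N : Mat_ (CorCat C)} (f : M ⟶ N) : Prop :=
  ∃ (P : Mat_ (CorCat C)) (A : M ⟶ P) (B : P ⟶ N), PureM D d P ∧ DegM (d + 1) A ∧ DegM d B ∧
    f = A ≫ B

lemma Fac.zero (d : ℕ) (M N : Mat_ (CorCat C)) : Fac D d (0 : M ⟶ N) :=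
  ⟨⟨PEmpty, PEmpty.elim⟩, 0, 0, fun i => i.elim, fun _ j => j.elim, fun i => i.elim,
    (Limits.zero_comp).symm⟩

lemma Fac.add {d : ℕ} {M N : Mat_ (CorCat C)} {f g : M ⟶ N} (hf : Fac D d f) (hg : Fac D d g) :
    Fac D d (f + g) := by
  obtain ⟨P, A, B, hP, hA, hB, rfl⟩ := hf
  obtain ⟨Q, A', B', hQ, hA', hB', rfl⟩ := hg
  let R : Mat_ (CorCat C) := ⟨P.ι ⊕ Q.ι, Sum.elim P.X Q.X⟩
  let a : M ⟶ R := fun i s => match s with
    | Sum.inl s => A i s
    | Sum.inr s => A' i s
  let b : R ⟶ N := fun s j => match s with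
    | Sum.inl s => B s j
    | Sum.inr s => B' s j
  refine ⟨R, a, b, ?_, ?_, ?_, ?_⟩
  · rintro (i | i)
    · exact hP i
    · exact hQ i
  · rintro i (s | s)
    · exact hA i s
    · exact hA' i s
  · rintro (s | s) j
    · exact hB s j
    · exact hB' s j
  · funext i j
    rw [Mat_.comp_apply]
    change _ = ∑ s : P.ι ⊕ Q.ι, a i s ≫ b s j
    rw [Fintype.sum_sum_type]
    rfl

lemma Fac.sum {d : ℕ} {M N : Mat_ (CorCat C)} {ι : Type*} (s : Finset ι) (f : ι → (M ⟶ N))
    (hf : ∀ i ∈ s, Fac D d (f i)) : Fac D d (∑ i ∈ s, f i) := by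
  classical
  induction s using Finset.induction_on with
  | empty => rw [Finset.sum_empty]; exact Fac.zero d M N
  | insert a s ha ih =>
    rw [Finset.sum_insert ha]
    exact (hf a (Finset.mem_insert_self _ _)).add (ih fun i hi => hf i (Finset.mem_insert_of_mem hi))

open Classical in
/-- The matrix with a single entry. -/
noncomputable def sgl {M N : Mat_ (CorCat C)} (i₀ : M.ι) (j₀ : N.ι) (x : M.X i₀ ⟶ N.X j₀) :
    M ⟶ N :=
  fun i j => (Pi.single (M := fun i => ∀ j, (M.X i ⟶ N.X j)) i₀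
    (Pi.single (M := fun j => (M.X i₀ ⟶ N.X j)) j₀ x)) i j

lemma sgl_zero {M N : Mat_ (CorCat C)} (i₀ : M.ι) (j₀ : N.ι) :
    sgl i₀ j₀ (0 : M.X i₀ ⟶ N.X j₀) = 0 := by
  classical
  funext i j
  rw [sgl, Pi.single_zero, Pi.single_zero]
  rfl

lemma sgl_add {M N : Mat_ (CorCat C)} (i₀ : M.ι) (j₀ : N.ι) (x y : M.X i₀ ⟶ N.X j₀) :
    sgl i₀ j₀ (x + y) = sgl i₀ j₀ x + sgl i₀ j₀ y := by
  classical
  funext i j
  rw [sgl, Pi.single_add, Pi.single_add]
  rfl

lemma sum_sgl {M N : Mat_ (CorCat C)} (f : M ⟶ N) : ∑ i, ∑ j, sgl i j (f i j) = f := by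
  classical
  have h1 : ∀ i, ∑ j, sgl i j (f i j) =
      (Pi.single (M := fun i => ∀ j, (M.X i ⟶ N.X j)) i (f i) : ∀ i j, (M.X i ⟶ N.X j)) := by
    intro i
    have h2 := Finset.univ_sum_single (f i)
    have h3 := map_sum (AddMonoidHom.single (fun i => ∀ j, (M.X i ⟶ N.X j)) i)
      (fun j => Pi.single j (f i j)) Finset.univ
    rw [h2] at h3
    exact h3.symm
  exact (Finset.sum_congr rfl fun i _ => h1 i).trans (Finset.univ_sum_single _)

/-- A composition as a matrix with a single entry. -/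
lemma sgl_comp {M N : Mat_ (CorCat C)} (i₀ : M.ι) (j₀ : N.ι) (Z : CorCat C) (a : M.X i₀ ⟶ Z)
    (b : Z ⟶ N.X j₀) {d : ℕ} (hZ : D Z.var) (hd : Z.var.dim = d) (ha : C.Deg (d + 1) (en a))
    (hb : C.Deg d (en b)) : Fac D d (sgl i₀ j₀ (a ≫ b) : M ⟶ N) := by
  classical
  let R : Mat_ (CorCat C) := ⟨PUnit, fun _ => Z⟩
  let A : M ⟶ R := fun i _ => (Pi.single (M := fun i => (M.X i ⟶ Z)) i₀ a) i
  let B : R ⟶ N := fun _ j => (Pi.single (M := fun j => (Z ⟶ N.X j)) j₀ b) j
  refine ⟨R, A, B, fun _ => ⟨hZ, hd⟩, fun i s => ?_, fun s j => ?_, ?_⟩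
  · by_cases h : i = i₀
    · subst h
      have e : A i s = a := Pi.single_eq_same _ _
      rw [e]
      exact ha
    · have e : A i s = 0 := Pi.single_eq_of_ne h _
      rw [e]
      exact Submodule.zero_mem _
  · by_cases h : j = j₀
    · subst h
      have e : B s j = b := Pi.single_eq_same _ _
      rw [e]
      exact hb
    · have e : B s j = 0 := Pi.single_eq_of_ne h _
      rw [e]
      exact Submodule.zero_mem _
  · funext i j
    rw [Mat_.comp_apply]
    change _ = ∑ s : PUnit, A i s ≫ B s j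
    rw [Fintype.sum_unique]
    by_cases hi : i = i₀
    · subst hi
      have e : A i default = a := Pi.single_eq_same _ _
      rw [e]
      by_cases hj : j = j₀
      · subst hj
        have e2 : B default j = b := Pi.single_eq_same _ _
        rw [e2, sgl, Pi.single_eq_same, Pi.single_eq_same]
      · have e2 : B default j = 0 := Pi.single_eq_of_ne hj _
        rw [e2, sgl, Pi.single_eq_same, Pi.single_eq_of_ne hj, Limits.comp_zero]
    · have e : A i default = 0 := Pi.single_eq_of_ne hi _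
      rw [e, sgl, Pi.single_eq_of_ne hi, Limits.zero_comp]
      rfl

/-- The generators in the theorem of Bloch and Srinivas. -/
def bsGen (C : TheoryData.{u, v, 0} 𝒱 ℚ) (D : 𝒱.Obj → Prop) (X Y : 𝒱.Obj) :
    Set (C.A (X.prod Y)) :=
  {Δ : C.A (X.prod Y) | ∃ (Z : 𝒱.Obj) (a : C.A (X.prod Z))
      (b : C.A (Z.prod Y)), D Z ∧ Z.dim + 1 = X.dim ∧ C.Deg X.dim a ∧ C.Deg ((Y.dim : ℤ) - 1) b ∧
      Δ = C.comp a b}

lemma fac_sgl {M N : Mat_ (CorCat C)} {d : ℕ} (hM : PureM D (d + 1) M) (hN : PureM D (d + 1) N)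
    (i₀ : M.ι) (j₀ : N.ι) (x : M.X i₀ ⟶ N.X j₀)
    (hx : en x ∈ Submodule.span ℚ (bsGen C D (M.X i₀).var (N.X j₀).var)) :
    Fac D d (sgl i₀ j₀ x : M ⟶ N) := by
  have key : ∀ y ∈ Submodule.span ℚ (bsGen C D (M.X i₀).var (N.X j₀).var), ∀ q : ℚ,
      Fac D d (sgl i₀ j₀ (toHom (q • y)) : M ⟶ N) := by
    intro y hy
    induction hy using Submodule.span_induction with
    | mem y hy =>
      intro q
      obtain ⟨Z, a, b, hZ, hZd, ha, hb, rfl⟩ := hy
      rw [(hM i₀).2] at hZd ha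
      rw [(hN j₀).2] at hb
      have h1 : (q • C.comp a b : C.A _) = C.comp a (q • b) := (comp_smul q a b).symm
      rw [h1]
      refine sgl_comp i₀ j₀ (CorCat.of C Z) a (q • b : C.A _) hZ (by
        change Z.dim = d
        omega) ?_ ?_
      · exact_mod_cast ha
      · refine Submodule.smul_mem _ q ?_
        have e : (((d + 1 : ℕ) : ℤ) - 1) = d := by push_cast; ring
        rwa [e] at hb
    | zero =>
      intro q
      have h0 : q • (0 : C.A (Obj.prod (M.X i₀).var (N.X j₀).var)) = 0 := smul_zero q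
      have h1 : toHom (X := M.X i₀) (Y := N.X j₀) (q • (0 : C.A _)) = 0 := by
        rw [h0]
        rfl
      rw [h1, sgl_zero]
      exact Fac.zero d M N
    | add y z _ _ hy hz =>
      intro q
      have h1 : toHom (X := M.X i₀) (Y := N.X j₀) (q • (y + z)) =
          toHom (q • y) + toHom (q • z) := smul_add q y z
      rw [h1, sgl_add]
      exact (hy q).add (hz q)
    | smul r y _ hy =>
      intro q
      have h1 : (q • r • y : C.A _) = (q * r) • y := smul_smul q r y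
      rw [h1]
      exact hy (q * r)
  have h2 := key (en x) hx 1
  have h3 : toHom ((1 : ℚ) • en x) = x := one_smul ℚ (en x)
  rwa [h3] at h2

lemma fac_of_entries {M N : Mat_ (CorCat C)} {d : ℕ} (hM : PureM D (d + 1) M)
    (hN : PureM D (d + 1) N) (f : M ⟶ N)
    (hf : ∀ i j, en (f i j) ∈ Submodule.span ℚ (bsGen C D (M.X i).var (N.X j).var)) :
    Fac D d f := by
  rw [← sum_sgl f]
  exact Fac.sum _ _ fun i _ => Fac.sum _ _ fun j _ => fac_sgl hM hN i j _ (hf i j)

include hH in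
/-- A composition of `d + 2` homologically trivial correspondences between varieties of dimension
`d + 1` factors through varieties of dimension `d`. -/
lemma IsComp.fac (hF : IsBBZero H D F) (hBS : BlochSrinivas C D) {d : ℕ} {M N : Mat_ (CorCat C)}
    (hM : PureM D (d + 1) M) (hN : PureM D (d + 1) N) {f : M ⟶ N}
    (hf : IsComp H D (d + 1) (d + 2) f) : Fac D d f := by
  apply fac_of_entries hM hN
  intro i j
  refine hBS _ _ (hM i).1 (hN j).1 _ ?_ fun x hx => hf.kills hF hM hN i j hx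
  rw [(hN j).2]
  exact hf.deg i j

include hH in
/-- Many compositions in dimension `d + 1` give compositions in dimension `d`. -/
lemma IsComp.descend (hF : IsBBZero H D F) (hBS : BlochSrinivas C D) {d : ℕ} (s : ℕ)
    {M N : Mat_ (CorCat C)} (hM : PureM D (d + 1) M) (hN : PureM D (d + 1) N) {f : M ⟶ N}
    (hf : IsComp H D (d + 1) ((d + 2) * (2 * s + 1)) f) :
    ∃ (P Q : Mat_ (CorCat C)) (A : M ⟶ P) (g : P ⟶ Q) (B : Q ⟶ N), PureM D d P ∧
      PureM D d Q ∧ DegM (d + 1) A ∧ DegM d B ∧ IsComp H D d s g ∧ f = A ≫ g ≫ B := by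
  induction s generalizing N with
  | zero =>
    rw [show (d + 2) * (2 * 0 + 1) = d + 2 by ring] at hf
    obtain ⟨P, A, B, hP, hA, hB, rfl⟩ := hf.fac hF hBS hM hN
    exact ⟨P, P, A, 𝟙 P, B, hP, hP, hA, hB, DegM.id hP, by rw [Category.id_comp]⟩
  | succ s ih =>
    rw [show (d + 2) * (2 * (s + 1) + 1) = ((d + 2) * (2 * s + 1) + (d + 2)) + (d + 2) by
      ring] at hf
    obtain ⟨M₂, f₁₂, f₃, hM₂, hf₁₂, hf₃, rfl⟩ := hf.split hN
    obtain ⟨M₁, f₁, f₂, hM₁, hf₁, hf₂, rfl⟩ := hf₁₂.split hM₂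
    obtain ⟨P, Q, A, g, B, hP, hQ, hA, hB, hg, rfl⟩ := ih hM₁ hf₁
    obtain ⟨R, A', B', hR, hA', hB', rfl⟩ := hf₃.fac hF hBS hM₂ hN
    refine ⟨P, R, A, g ≫ (B ≫ f₂ ≫ A'), B', hP, hR, hA, hB', ?_, ?_⟩
    · refine ⟨Q, g, B ≫ f₂ ≫ A', hQ, hg, fun i j => ⟨?_, ?_⟩, rfl⟩
      · refine DegM.comp hM₁ hB (DegM.comp hM₂ hf₂.deg hA' rfl) ?_ i j
        push_cast
        ring
      · exact TrivM.comp_right (TrivM.comp_left fun i j => (hf₂.triv i j).2) i j
    · simp only [Category.assoc]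

include hH in
/-- **Nilpotence** for families of varieties of dimension `d`. -/
theorem IsComp.eq_zero (hF : IsBBZero H D F) (hBS : BlochSrinivas C D) (d : ℕ)
    {M N : Mat_ (CorCat C)} (hM : PureM D d M) (hN : PureM D d N) {f : M ⟶ N}
    (hf : IsComp H D d (nilIndex d) f) : f = 0 := by
  induction d generalizing M N with
  | zero =>
    have h1 : IsComp H D 0 (0 + 1) f := hf
    funext i j
    have h2 := h1.triv i j
    exact gr_zero_eq (H := H) (by exact_mod_cast h2.1) h2.2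
  | succ d ih =>
    obtain ⟨P, Q, A, g, B, hP, hQ, -, -, hg, rfl⟩ := IsComp.descend hF hBS (nilIndex d) hM hN hf
    rw [ih hP hQ hg, Limits.zero_comp, Limits.comp_zero]

end Pool.Agent.X307.ZC
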